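import Pool.Agent.Lib.MP_d24f8b_al.Grig

/-! The permutational wreath product of a group of P. Hall type, whose centre has elements of every
prime order, with the Grigorchuk group. -/

set_option autoImplicit false

namespace Pool.Agent.Lib.MP_d24f8b_al.AC

open Equiv

abbrev C : Type := ∀ n : ℕ, ZMod n

abbrev Z : Type := (ℤ →₀ ℤ) × C

/-- the generator of the `i`-th cyclic factor -/
def gam (i : ℤ) : C := Pi.single i.toNat 1

noncomputable def pr : (ℤ →₀ ℤ) →ₗ[ℤ] C := Finsupp.linearCombination ℤ gam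

noncomputable def tr (c : C) : Perm Z := Equiv.addRight (0, c)

noncomputable def bet (i : ℤ) : Perm Z := Equiv.addRight (Finsupp.single i 1, 0)

noncomputable def tau : Perm Z :=
  Equiv.prodCongr (Finsupp.domCongr (Equiv.addRight (1 : ℤ))).toEquiv (Equiv.refl C)

noncomputable def alp : Perm Z where
  toFun z := (z.1, z.2 + pr z.1)
  invFun z := (z.1, z.2 - pr z.1)
  left_inv z := by simp
  right_inv z := by simp

lemma tr_apply (c : C) (z : Z) : tr c z = (z.1, z.2 + c) := by
  ext1 <;> simp [tr]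

lemma tau_bet (i : ℤ) : tau * bet i = bet (i + 1) * tau := by
  ext1 z
  ext1
  · simp only [tau, bet, Perm.mul_apply, coe_addRight, prodCongr_apply, Prod.map_fst, Prod.fst_add,
      AddEquiv.toEquiv_eq_coe, EquivLike.coe_coe, map_add]
    simp [Finsupp.domCongr_apply]
  · simp [tau, bet]

lemma alp_bet (i : ℤ) : alp * bet i = tr (gam i) * bet i * alp := by
  ext1 z
  ext1
  · simp [alp, bet, tr]
  · simp only [alp, bet, tr, Perm.mul_apply, coe_addRight, coe_fn_mk, Prod.fst_add, Prod.snd_add,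
      map_add, pr, Finsupp.linearCombination_single, one_smul, add_zero, zero_add, add_assoc]

lemma tr_mem {H : Subgroup (Perm Z)} (h1 : alp ∈ H) (h2 : tau ∈ H) (h3 : bet 0 ∈ H) (i : ℤ) :
    tr (gam i) ∈ H := by
  have hb : bet i ∈ H := by
    induction i using Int.induction_on with
    | zero => exact h3
    | succ i ih =>
      rw [← mul_inv_eq_iff_eq_mul.2 (tau_bet i)]
      exact mul_mem (mul_mem h2 ih) (inv_mem h2)
    | pred i ih =>
      have := tau_bet (-(i : ℤ) - 1)
      rw [sub_add_cancel] at this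
      rw [eq_inv_mul_iff_mul_eq.2 this]
      exact mul_mem (inv_mem h2) (mul_mem ih h2)
  have : tr (gam i) = alp * bet i * alp⁻¹ * (bet i)⁻¹ := by rw [alp_bet]; group
  rw [this]
  exact mul_mem (mul_mem (mul_mem h1 hb) (inv_mem h1)) (inv_mem hb)

/-- the lamp at the point `x` -/
def lam (x : ℕ) : Perm Z →* Perm (ℕ × Z) :=
  MonoidHom.mk' (fun σ => Equiv.prodCongrRight fun y => if y = x then σ else 1) fun σ σ' => by
    ext1 z
    obtain ⟨y, z⟩ := z
    by_cases h : y = x <;> simp [h]

lemma lam_apply (x : ℕ) (σ : Perm Z) (y : ℕ) (z : Z) :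
    lam x σ (y, z) = (y, if y = x then σ z else z) := by
  by_cases h : y = x <;> simp [lam, h]

def qA : Perm (ℕ × Z) where
  toFun x := (A x.1, x.2)
  invFun x := (A x.1, x.2)
  left_inv x := by simp [A_A]
  right_inv x := by simp [A_A]

def qV (v : V) : Perm (ℕ × Z) where
  toFun x := (act v x.1, x.2)
  invFun x := (act v x.1, x.2)
  left_inv x := by simp [act_act]
  right_inv x := by simp [act_act]

def gens : Set (Perm (ℕ × Z)) :=
  {qA, qV V.b, qV V.c, qV V.d, lam 0 alp, lam 0 tau, lam 0 (bet 0)}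

/-- the group -/
def H : Subgroup (Perm (ℕ × Z)) := Subgroup.closure gens

instance : Group.FG H := by
  have : Finite gens := by unfold gens; infer_instance
  exact Group.closure_finite_fg gens

lemma ev_inj (l : List V) : Function.Injective (ev l) := by
  induction l with
  | nil => exact fun _ _ h => h
  | cons x r ih =>
    intro a b h
    have h1 := congrArg (fun n => A (act x n)) h
    simp only [ev, act_act, A_A] at h1
    exact ih h1

/-- the properties shared by all elements of the group -/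
structure Good (g : Perm (ℕ × Z)) : Prop where
  word : ∃ l : List V, ∀ x, (g x).1 = ev l x.1
  comm : ∀ c y z, g (y, tr c z) = ((g (y, z)).1, tr c (g (y, z)).2)
  fin : {y | ∃ z, (g (y, z)).2 ≠ z}.Finite

lemma Good.mul {g h : Perm (ℕ × Z)} (hg : Good g) (hh : Good h) : Good (g * h) := by
  obtain ⟨l, hl⟩ := hg.word
  obtain ⟨l', hl'⟩ := hh.word
  refine ⟨⟨l ++ l', fun z => by rw [Perm.mul_apply, hl, hl', ev_append]⟩, fun c y z => ?_, ?_⟩
  · rw [Perm.mul_apply, hh.comm, hg.comm]
    rfl
  · refine (hh.fin.union (hg.fin.preimage (ev_inj l').injOn)).subset ?_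
    rintro y ⟨z, hz⟩
    by_cases h1 : (h (y, z)).2 = z
    · refine .inr ⟨z, ?_⟩
      have : h (y, z) = (ev l' y, z) := Prod.ext (hl' _) h1
      rwa [Perm.mul_apply, this] at hz
    · exact .inl ⟨z, h1⟩

lemma good_lam {σ : Perm Z} (h : ∀ c, Commute σ (tr c)) : Good (lam 0 σ) := by
  refine ⟨⟨[], fun x => by obtain ⟨y, z⟩ := x; rw [lam_apply]; rfl⟩, fun c y z => ?_, ?_⟩
  · simp only [lam_apply]
    split_ifs
    · exact congrArg _ (congrArg (fun f : Perm Z => f z) (h c).eq)
    · rfl
  · refine (Set.finite_singleton 0).subset ?_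
    rintro y ⟨z, hz⟩
    by_contra h0
    exact hz (by rw [lam_apply, if_neg (show ¬ y = 0 from h0)])

lemma good (g : H) : Good g.1 := by
  obtain ⟨g, hg⟩ := g
  have hA : Good qA := ⟨⟨[V.e], fun x => by simp [ev, act_e, qA]⟩, fun _ _ _ => rfl, by simp [qA]⟩
  have hV : ∀ v, Good (qV v) := fun v =>
    ⟨⟨[v, V.e], fun x => by simp [ev, act_e, A_A, qV]⟩, fun _ _ _ => rfl, by simp [qV]⟩
  have c1 : ∀ c, Commute alp (tr c) := fun c => by
    ext1 z
    simp [tr_apply, alp, add_right_comm]
  have c2 : ∀ c, Commute tau (tr c) := fun c => by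
    ext1 z
    simp [tr_apply, tau, Prod.map]
  have c3 : ∀ c, Commute (bet 0) (tr c) := fun c => by
    ext1 z
    simp [tr, bet, add_right_comm]
  induction hg using Subgroup.closure_induction'' with
  | mem x hx =>
    simp only [gens, Set.mem_insert_iff, Set.mem_singleton_iff] at hx
    rcases hx with rfl | rfl | rfl | rfl | rfl | rfl | rfl
    exacts [hA, hV _, hV _, hV _, good_lam c1, good_lam c2, good_lam c3]
  | inv_mem x hx =>
    simp only [gens, Set.mem_insert_iff, Set.mem_singleton_iff] at hx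
    rcases hx with rfl | rfl | rfl | rfl | rfl | rfl | rfl
    · exact hA
    · exact hV _
    · exact hV _
    · exact hV _
    all_goals
      show Good _⁻¹
      rw [← map_inv]
    exacts [good_lam fun c => (c1 c).inv_left, good_lam fun c => (c2 c).inv_left,
      good_lam fun c => (c3 c).inv_left]
  | one => exact ⟨⟨[], fun _ => rfl⟩, fun _ _ _ => rfl, by simp⟩
  | mul x y _ _ hx hy => exact hx.mul hy

/-- a word representing the action of `g` on the base set -/
noncomputable def W (g : H) : List V := (good g).word.choose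

lemma W_spec (g : H) (x : ℕ × Z) : (g.1 x).1 = ev (W g) x.1 := (good g).word.choose_spec x

lemma ev_mul (g h : H) (y : ℕ) : ev (W (g * h)) y = ev (W g) (ev (W h) y) := by
  rw [← W_spec (g * h) (y, 0), ← W_spec h (y, 0), ← W_spec g]
  rfl

lemma conj_lam (g : H) (x : ℕ) (c : C) :
    g.1 * lam x (tr c) = lam (ev (W g) x) (tr c) * g.1 := by
  ext1 w
  obtain ⟨y, z⟩ := w
  have e : g.1 (y, z) = (ev (W g) y, (g.1 (y, z)).2) := Prod.ext (W_spec g _) rfl
  rw [Perm.mul_apply, Perm.mul_apply, lam_apply, e, lam_apply]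
  by_cases h : y = x
  · rw [if_pos h, if_pos (by rw [h]), (good g).comm, W_spec]
  · rw [if_neg h, if_neg fun h' => h (ev_inj _ h')]
    exact e

lemma trans (y : ℕ) : ∃ g : H, ev (W g) 0 = y := by
  induction y with
  | zero => exact ⟨1, (W_spec 1 (0, 0)).symm⟩
  | succ p ih =>
    obtain ⟨g, hg⟩ := ih
    rcases Nat.mod_two_eq_zero_or_one p with h | h
    · refine ⟨⟨qA, Subgroup.subset_closure (by simp [gens])⟩ * g, ?_⟩
      rw [ev_mul, hg, ← W_spec _ (p, 0)]
      simp [qA, A, h]
    · obtain ⟨v, hv⟩ := sw_exists ((p + 1) / 2) (by omega)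
      have hm : qV v ∈ H := by
        cases v
        · have : qV V.e = 1 := by ext1 x; simp [qV, act_e]
          rw [this]
          exact one_mem _
        all_goals exact Subgroup.subset_closure (by simp [gens])
      refine ⟨⟨qV v, hm⟩ * g, ?_⟩
      rw [ev_mul, hg, ← W_spec _ (p, 0)]
      simp [qV, act, h, hv]

lemma lam_mem (i : ℤ) (x : ℕ) : lam x (tr (gam i)) ∈ H := by
  have h0 : lam 0 (tr (gam i)) ∈ H :=
    tr_mem (H := H.comap (lam 0)) (Subgroup.subset_closure (by simp [gens]))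
      (Subgroup.subset_closure (by simp [gens])) (Subgroup.subset_closure (by simp [gens])) i
  obtain ⟨g, rfl⟩ := trans x
  rw [← mul_inv_eq_iff_eq_mul.2 (conj_lam g 0 _)]
  exact mul_mem (mul_mem g.2 h0) (inv_mem g.2)

/-- the central lamp number `i` at the point `x` -/
noncomputable def X (i : ℤ) (x : ℕ) : H := ⟨lam x (tr (gam i)), lam_mem i x⟩

lemma conj_X (g : H) (i : ℤ) (x : ℕ) : g * X i x = X i (ev (W g) x) * g :=
  Subtype.ext (conj_lam g x _)

lemma X_comm (i : ℤ) (x y : ℕ) : X i x * X i y = X i y * X i x := by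
  rw [conj_X, ← W_spec (X i x) (y, 0)]
  simp only [X, lam_apply]

lemma tr_pow (c : C) (k : ℕ) : tr c ^ k = tr (k • c) := by
  simp [tr]

lemma X_pow (p x : ℕ) : X p x ^ p = 1 := by
  apply Subtype.ext
  have : p • gam p = 0 := by
    rw [gam, ← Pi.single_nsmul]
    simp
  show lam x (tr (gam p)) ^ p = 1
  rw [← map_pow, tr_pow, this, show tr 0 = 1 from by ext1 z; simp [tr_apply], map_one]

lemma X_ne {p : ℕ} (hp : 1 < p) (x : ℕ) : X p x ≠ 1 := fun h => by
  have h1 := congrArg (fun g : H => (g.1 (x, 0)).2.2 p) h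
  have : Fact (1 < p) := ⟨hp⟩
  simp [X, lam_apply, tr_apply, gam] at h1

/-- every non-trivial conjugacy class is infinite -/
lemma icc {h : H} (hf : {x | IsConj h x}.Finite) : h = 1 := by
  let T : H → Set ℕ := fun g => {y | ∃ z, g.1 (y, z) ≠ (y, z)}
  have hT : ∀ g : H, T (g * h * g⁻¹) = ev (W g) '' T h := fun g => by
    ext y
    constructor
    · rintro ⟨z, hz⟩
      refine ⟨(g.1⁻¹ (y, z)).1, ⟨(g.1⁻¹ (y, z)).2, fun e => hz ?_⟩, ?_⟩
      · show g.1 (h.1 (g.1⁻¹ (y, z))) = _
        rw [show h.1 (g.1⁻¹ (y, z)) = g.1⁻¹ (y, z) from e]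
        simp
      · rw [← W_spec]
        simp
    · rintro ⟨y, ⟨z, hz⟩, rfl⟩
      refine ⟨(g.1 (y, z)).2, fun e => hz (g.1.injective ?_)⟩
      rw [← W_spec g (y, z)] at e
      simpa using e
  by_cases hfin : (T h).Finite
  · by_contra hne
    obtain ⟨y, hy⟩ : (T h).Nonempty := by
      by_contra h0
      refine hne (Subtype.ext (Equiv.ext fun w => ?_))
      by_contra h1
      exact h0 ⟨w.1, w.2, h1⟩
    refine Set.infinite_univ (α := ℕ) ((hf.biUnion (t := T) fun x hx => ?_).subset fun n _ => ?_)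
    · obtain ⟨g, rfl⟩ := isConj_iff.1 hx
      rw [hT]
      exact hfin.image _
    · obtain ⟨g1, rfl⟩ := trans y
      obtain ⟨g2, rfl⟩ := trans n
      refine Set.mem_biUnion (isConj_iff.2 ⟨g2 * g1⁻¹, rfl⟩) ?_
      rw [hT]
      exact ⟨_, hy, by rw [← ev_mul, inv_mul_cancel_right]⟩
  · exfalso
    have hinf : {y | ev (W h) y ≠ y}.Infinite := fun h1 => hfin <|
      (h1.union (good h).fin).subset (by
        rintro y ⟨z, hz⟩
        by_cases h2 : ev (W h) y = y
        · exact .inr ⟨z, fun h3 => hz (Prod.ext ((W_spec h _).trans h2) h3)⟩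
        · exact .inl h2)
    obtain ⟨q, hq, r, -, hne, e⟩ := hinf.exists_ne_map_eq_of_mapsTo
      (f := fun q => X 3 q * h * (X 3 q)⁻¹) (fun q _ => isConj_iff.2 ⟨_, rfl⟩) hf
    have key : ∀ q, X 3 q * h * (X 3 q)⁻¹ = X 3 q * (X 3 (ev (W h) q))⁻¹ * h := fun q => by
      rw [mul_assoc, mul_assoc, mul_right_inj, mul_inv_eq_iff_eq_mul, mul_assoc, conj_X,
        inv_mul_cancel_left]
    rw [key, key, mul_left_inj, mul_inv_eq_iff_eq_mul, mul_assoc, ← (Commute.inv_right
      (show Commute (X 3 _) (X 3 _) from X_comm 3 _ _)).eq, ← mul_assoc, eq_mul_inv_iff_mul_eq] at e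
    have h1 := congrArg (fun g : H => (g.1 (q, 0)).2.2 3) e
    have hq' : ¬ q = ev (W h) q := fun h2 => hq h2.symm
    simp only [X, Subgroup.coe_mul, Perm.mul_apply, lam_apply, if_neg hne, if_neg hq', if_true,
      tr_apply] at h1
    split_ifs at h1 <;> simp only [gam] at h1 <;> revert h1 <;> simp <;> decide

end Pool.Agent.Lib.MP_d24f8b_al.AC
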