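import Pool.Agent.Lib.MP_d24f8b_al.Wreath

/-! Nilpotent two-sided ideals, and base change to every field of characteristic 2. -/

set_option autoImplicit false

namespace Pool.Agent.Lib.MP_d24f8b_al.H86

section Gen

variable {S : Type*} [Ring S]

theorem sup_pow_le (I J : Ideal S) [I.IsTwoSided] (k : ℕ) : (I ⊔ J) ^ k ≤ I ⊔ J ^ k := by
  induction k with
  | zero => rw [Submodule.pow_zero, Submodule.pow_zero]; exact le_sup_right
  | succ k ih =>
    rw [Submodule.pow_succ, Submodule.pow_succ]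
    refine (Ideal.mul_mono_left ih).trans ?_
    rw [Ideal.sup_mul, Ideal.mul_sup (J ^ k)]
    exact sup_le (Ideal.mul_le_left.trans le_sup_left)
      (sup_le (Ideal.mul_le_right.trans le_sup_left) le_sup_right)

theorem pow_mul_le {I L : Ideal S} {m : ℕ} (hm : m ≠ 0) (h : L ^ m ≤ I) (k : ℕ) :
    L ^ (m * k) ≤ I ^ k := by
  induction k with
  | zero => rw [mul_zero, Submodule.pow_zero, Submodule.pow_zero]
  | succ k ih =>
    rw [mul_add, mul_one, Submodule.pow_add _ hm, Submodule.pow_succ]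
    exact Ideal.mul_mono ih h

/-- nilpotent two-sided ideals, as left ideals -/
def Nil (S : Type*) [Ring S] : Set (Ideal S) := {I | I.IsTwoSided ∧ ∃ n, 1 ≤ n ∧ I ^ n = ⊥}

theorem mem_sSup_Nil {x : S} (hx : x ∈ sSup (Nil S)) : ∃ I ∈ Nil S, x ∈ I := by
  have hne : (Nil S).Nonempty := ⟨⊥, inferInstance, 1, le_rfl, Submodule.pow_one _⟩
  refine (Submodule.mem_sSup_of_directed hne ?_).1 hx
  rintro I ⟨hI, n, n1, hn⟩ J ⟨hJ, m, m1, hm⟩
  refine ⟨I ⊔ J, ⟨⟨fun b ha => ?_⟩, m * n, Nat.mul_pos m1 n1, eq_bot_iff.2 ?_⟩, le_sup_left,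
    le_sup_right⟩
  · obtain ⟨u, hu, v, hv, rfl⟩ := Submodule.mem_sup.1 ha
    rw [add_mul]
    exact Submodule.add_mem_sup (Ideal.mul_mem_right b I hu) (Ideal.mul_mem_right b J hv)
  · have := sup_pow_le I J m
    rw [hm, sup_bot_eq] at this
    exact (pow_mul_le (by omega) this n).trans hn.le

theorem exists_of_mem_sSup {x : S}
    (hx : x ∈ sSup {I : TwoSidedIdeal S | ∃ n : ℕ, 1 ≤ n ∧ I.asIdeal ^ n = ⊥}) :
    ∃ I ∈ Nil S, x ∈ I := by
  have : (sSup (Nil S)).IsTwoSided := ⟨fun b ha => by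
    obtain ⟨I, hI, h⟩ := mem_sSup_Nil ha
    have := hI.1
    exact le_sSup hI (I.mul_mem_right b h)⟩
  have : sSup {I : TwoSidedIdeal S | ∃ n : ℕ, 1 ≤ n ∧ I.asIdeal ^ n = ⊥}
      ≤ (sSup (Nil S)).toTwoSided := by
    refine sSup_le fun I hI y hy => Ideal.mem_toTwoSided.2 ?_
    exact le_sSup (s := Nil S) (a := I.asIdeal) ⟨inferInstance, hI⟩ hy
  exact mem_sSup_Nil (Ideal.mem_toTwoSided.1 (this hx))

theorem mem_jac {x : S} (h : ∀ y, IsNilpotent (y * x)) :
    x ∈ sInf {M : Ideal S | M.IsMaximal} := by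
  rw [← Ring.jacobson_eq_sInf_isMaximal, ← Ideal.jacobson_bot, Ideal.mem_jacobson_iff]
  intro y
  obtain ⟨u, hu⟩ := (h y).isUnit_add_one
  refine ⟨↑u⁻¹, ?_⟩
  rw [Ideal.mem_bot, mul_assoc]
  have : (↑u⁻¹ : S) * (y * x) + ↑u⁻¹ = ↑u⁻¹ * ↑u := by rw [hu, mul_add, mul_one]
  rw [this, Units.inv_mul, sub_self]

theorem prod_mem_pow (I : Ideal S) [I.IsTwoSided] (l : List S) (h : ∀ x ∈ l, x ∈ I) :
    l.prod ∈ I ^ l.length := by
  induction l with
  | nil => rw [List.length_nil, Submodule.pow_zero, Ideal.one_eq_top]; trivial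
  | cons a r ih =>
    rw [List.length_cons, Ideal.IsTwoSided.pow_succ, List.prod_cons]
    exact Ideal.mul_mem_mul (h a (by simp)) (ih fun x hx => h x (by simp [hx]))

theorem pow_zero_of_span {K ι : Type*} [Field K] [Algebra K S] (t : ι → S)
    (U : Set ι) (z : S) (hz : z ∈ Submodule.span K (t '' U)) (n : ℕ) :
    ∀ r : S, (∀ l : List ι, l.length = n → (∀ g ∈ l, g ∈ U) → r * (l.map t).prod = 0) →
      r * z ^ n = 0 := by
  induction n with
  | zero => intro r h; simpa using h [] rfl (by simp)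
  | succ n ih =>
    intro r h
    have key : ∀ y ∈ Submodule.span K (t '' U), r * y * z ^ n = 0 := by
      intro y hy
      induction hy using Submodule.span_induction with
      | mem x hx =>
        obtain ⟨g, hg, rfl⟩ := hx
        refine ih _ (fun l hl hU => ?_)
        have := h (g :: l) (by simp [hl]) (by
          intro x hx
          rcases List.mem_cons.1 hx with rfl | hx
          · exact hg
          · exact hU x hx)
        simpa [mul_assoc] using this
      | zero => simp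
      | add x y _ _ hx hy => rw [mul_add, add_mul, hx, hy, add_zero]
      | smul c x _ hx => rw [mul_smul_comm, smul_mul_assoc, hx, smul_zero]
    rw [pow_succ', ← mul_assoc]
    exact key z hz

end Gen

variable {K : Type*} [Field K] (f : ZMod 2 →+* K)

theorem map_inj : Function.Injective (MonoidAlgebra.mapRingHom G f) := by
  intro x y h
  ext g
  apply f.injective
  rw [← MonoidAlgebra.coeff_mapRingHom, ← MonoidAlgebra.coeff_mapRingHom, h]

theorem nilpotent_mul (y : MonoidAlgebra K G) :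
    IsNilpotent (y * MonoidAlgebra.mapRingHom G f (E 0)) := by
  have hy : ∃ L : ℕ, y * MonoidAlgebra.mapRingHom G f (E 0) ∈ Submodule.span K
      ((fun g => MonoidAlgebra.mapRingHom G f (MonoidAlgebra.of (ZMod 2) G g * E 0)) ''
        {g | nrm (W g) ≤ L}) := by
    induction y using MonoidAlgebra.induction_on with
    | of g =>
      refine ⟨nrm (W g), Submodule.subset_span ⟨g, by simp, ?_⟩⟩
      simp only [map_mul, MonoidAlgebra.of_apply, MonoidAlgebra.mapRingHom_single, map_one]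
    | add a b ha hb =>
      obtain ⟨L1, h1⟩ := ha
      obtain ⟨L2, h2⟩ := hb
      refine ⟨max L1 L2, ?_⟩
      rw [add_mul]
      refine add_mem (Submodule.span_mono (Set.image_mono ?_) h1)
        (Submodule.span_mono (Set.image_mono ?_) h2)
      · intro g hg; exact le_trans (show nrm (W g) ≤ L1 from hg) (le_max_left _ _)
      · intro g hg; exact le_trans (show nrm (W g) ≤ L2 from hg) (le_max_right _ _)
    | smul r a ha =>
      obtain ⟨L, h⟩ := ha
      exact ⟨L, by rw [smul_mul_assoc]; exact Submodule.smul_mem _ _ h⟩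
  obtain ⟨L, hL⟩ := hy
  obtain ⟨n, hn⟩ := prod_t_eq_zero L
  refine ⟨n, ?_⟩
  have := pow_zero_of_span _ _ _ hL n 1 (fun l hl hU => by
    have := congrArg (MonoidAlgebra.mapRingHom G f) (hn l hl hU)
    rw [map_list_prod, List.map_map, map_zero] at this
    rw [one_mul]
    exact this)
  simpa using this

theorem not_mem_Nil {I : Ideal (MonoidAlgebra K G)} (hI : I ∈ Nil (MonoidAlgebra K G)) :
    MonoidAlgebra.mapRingHom G f (E 0) ∉ I := by
  intro h
  obtain ⟨h2, n, -, hn⟩ := hI
  refine E_not_mem (le_sSup (s := NilSet R) (a := I.comap (MonoidAlgebra.mapRingHom G f))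
    ⟨fun a ha b => ?_, n, fun l hl hx => map_inj f ?_⟩ h)
  · rw [Ideal.mem_comap, map_mul]
    exact I.mul_mem_right _ ha
  · have := prod_mem_pow I (l.map (MonoidAlgebra.mapRingHom G f)) (by
      intro x hx'
      obtain ⟨a, ha, rfl⟩ := List.mem_map.1 hx'
      exact hx a ha)
    rwa [List.length_map, hl, hn, Ideal.mem_bot, ← map_list_prod, ← map_zero
      (MonoidAlgebra.mapRingHom G f)] at this

include f in
theorem strict :
    (sSup {I : TwoSidedIdeal (MonoidAlgebra K G) | ∃ n : ℕ, 1 ≤ n ∧ I.asIdeal ^ n = ⊥}).asIdeal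
      < sInf {M : Ideal (MonoidAlgebra K G) | M.IsMaximal} := by
  refine SetLike.lt_iff_le_and_exists.2 ⟨fun x hx => mem_jac fun y => ?_,
    _, mem_jac (nilpotent_mul f), fun hx => ?_⟩
  · obtain ⟨I, ⟨-, n, -, hn⟩, h⟩ := exists_of_mem_sSup (TwoSidedIdeal.mem_asIdeal.1 hx)
    have := Ideal.pow_mem_pow (I.mul_mem_left y h) n
    rw [hn] at this
    exact ⟨n, this⟩
  · obtain ⟨I, hI, h⟩ := exists_of_mem_sSup (TwoSidedIdeal.mem_asIdeal.1 hx)
    exact not_mem_Nil f hI h

end Pool.Agent.Lib.MP_d24f8b_al.H86
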