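import Pool.Agent.Lib.MP_d24f8b_al.ACGroup
import Pool.Agent.Lib.MP_d24f8b_al.H86Own
import Pool.Agent.Lib.MP_95bae3_an.FC.Defs

/-! The group algebra is prime and has a non-zero Jacobson radical in positive characteristic. -/

set_option autoImplicit false

open Pointwise

namespace Pool.Agent.Lib.MP_d24f8b_al.AC

open Pool.Agent.Lib.MP_95bae3_an.FC

variable {K : Type*} [Field K]

/-- group algebras of groups with infinite conjugacy classes are prime -/
theorem prime_of_icc {Γ : Type} [Group Γ] (hΓ : ∀ h : Γ, {x | IsConj h x}.Finite → h = 1)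
    (a b : MonoidAlgebra K Γ) (h : ∀ x, a * x * b = 0) : a = 0 ∨ b = 0 := by
  classical
  by_contra hc
  push Not at hc
  obtain ⟨s, hs⟩ : ∃ s, a.coeff s ≠ 0 := by
    by_contra h0
    push Not at h0
    exact hc.1 (by ext g; simp [h0])
  obtain ⟨t, ht⟩ : ∃ t, b.coeff t ≠ 0 := by
    by_contra h0
    push Not at h0
    exact hc.2 (by ext g; simp [h0])
  have hγ : ∀ i : Γ × Γ, ∃ γ : Γ, ∀ g : Γ, i.1 * g⁻¹ * i.2 = s * g⁻¹ * t →
      g ∈ γ • (Subgroup.centralizer {s⁻¹ * i.1} : Set Γ) := by
    intro i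
    by_cases he : ∃ g0 : Γ, i.1 * g0⁻¹ * i.2 = s * g0⁻¹ * t
    · obtain ⟨g0, h0⟩ := he
      refine ⟨g0, fun g hg => ?_⟩
      rw [mem_leftCoset_iff, SetLike.mem_coe, Subgroup.mem_centralizer_singleton_iff]
      have e0 : s⁻¹ * i.1 = g0⁻¹ * t * i.2⁻¹ * g0 := by
        rw [show g0⁻¹ * t = s⁻¹ * (s * g0⁻¹ * t) by group, ← h0]
        group
      have e1 : s⁻¹ * i.1 = g⁻¹ * t * i.2⁻¹ * g := by
        rw [show g⁻¹ * t = s⁻¹ * (s * g⁻¹ * t) by group, ← hg]
        group
      conv_lhs => rw [e1]
      conv_rhs => rw [e0]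
      group
    · exact ⟨1, fun g hg => (he ⟨g, hg⟩).elim⟩
  choose γ hγ using hγ
  obtain ⟨g, hg⟩ : ∃ g : Γ, ∀ u ∈ a.coeff.support, ∀ v ∈ b.coeff.support,
      u * g⁻¹ * v = s * g⁻¹ * t → u = s := by
    by_contra hbad
    push Not at hbad
    obtain ⟨i, hi, hfi⟩ := Subgroup.exists_finiteIndex_of_leftCoset_cover
      (s := (a.coeff.support.erase s) ×ˢ b.coeff.support) (g := γ)
      (H := fun i : Γ × Γ => Subgroup.centralizer {s⁻¹ * i.1}) (Set.eq_univ_of_forall fun g => by
        obtain ⟨u, hu, v, hv, e, hne⟩ := hbad g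
        exact Set.mem_iUnion₂.2 ⟨(u, v), by simp [hne, Finsupp.mem_support_iff.1 hu,
          Finsupp.mem_support_iff.1 hv], hγ (u, v) g e⟩)
    have := hΓ _ (mem_fc_iff.1 (mem_fc.2 hfi))
    exact (Finset.mem_erase.1 (Finset.mem_product.1 hi).1).1 (inv_mul_eq_one.1 this).symm
  have hu : UniqueMul a.coeff.support (MonoidAlgebra.single g⁻¹ (1 : K) * b).coeff.support s
      (g⁻¹ * t) := by
    intro u w hu hw e
    rw [Finsupp.mem_support_iff, MonoidAlgebra.coeff_single_mul_apply, one_mul, inv_inv] at hw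
    obtain rfl := hg u hu (g * w) (Finsupp.mem_support_iff.2 hw) (by rw [mul_assoc s, ← e]; group)
    exact ⟨rfl, mul_left_cancel e⟩
  have h1 := MonoidAlgebra.coeff_mul_mul_of_uniqueMul hu
  rw [← mul_assoc, h, MonoidAlgebra.coeff_single_mul_apply, one_mul, inv_inv,
    mul_inv_cancel_left] at h1
  exact mul_ne_zero hs ht h1.symm

theorem eq_bot_of_prime {S : Type*} [Ring S] [Nontrivial S]
    (hS : ∀ a b : S, (∀ x, a * x * b = 0) → a = 0 ∨ b = 0) (I : Ideal S) (n : ℕ)
    (h : I ^ n = ⊥) : I = ⊥ := by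
  induction n with
  | zero =>
    rw [Submodule.pow_zero, Ideal.one_eq_top] at h
    exact absurd h top_ne_bot
  | succ n ih =>
    by_contra hI
    obtain ⟨b, hb, hb0⟩ := (Submodule.ne_bot_iff I).1 hI
    refine hI (ih ((Submodule.eq_bot_iff _).2 fun a ha => (hS a b fun x => ?_).resolve_right hb0))
    have := Ideal.mul_mem_mul ha (I.mul_mem_left x hb)
    rwa [← Submodule.pow_succ, h, Ideal.mem_bot, ← mul_assoc] at this

/-- the augmentation of a central lamp -/
noncomputable def E (K : Type*) [Field K] (p x : ℕ) : MonoidAlgebra K H :=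
  MonoidAlgebra.of K H (X p x) - 1

variable {p : ℕ}

lemma of_mul_E (g : H) (x : ℕ) :
    MonoidAlgebra.of K H g * E K p x = E K p (ev (W g) x) * MonoidAlgebra.of K H g := by
  simp only [E, mul_sub, sub_mul, mul_one, one_mul, ← map_mul, conj_X]

lemma E_comm (x y : ℕ) : Commute (E K p x) (E K p y) :=
  ((Commute.map (X_comm p x y) (MonoidAlgebra.of K H)).sub_right (.one_right _)).sub_left
    (.one_left _)

lemma E_pow [Fact p.Prime] [CharP K p] (x : ℕ) : E K p x ^ p = 0 := by
  have : CharP (MonoidAlgebra K H) p := charP_of_injective_algebraMap (algebraMap K _).injective p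
  rw [E, sub_pow_char_of_commute _ (.one_right _), ← map_pow, X_pow, map_one, one_pow, sub_self]

lemma E_ne (hp : 1 < p) (x : ℕ) : E K p x ≠ 0 := fun h =>
  X_ne hp x (MonoidAlgebra.of_injective ((sub_eq_zero.1 h).trans (map_one _).symm))

lemma prod_E (q : ℕ) (l : List ℕ) : ∃ r, (l.map (E K p)).prod = E K p q ^ l.count q * r := by
  induction l with
  | nil => exact ⟨1, by simp⟩
  | cons x l ih =>
    obtain ⟨r, hr⟩ := ih
    rw [List.map_cons, List.prod_cons, hr]
    by_cases h : x = q
    · exact ⟨r, by rw [h, List.count_cons_self, pow_succ', mul_assoc]⟩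
    · exact ⟨E K p x * r, by
        rw [List.count_cons_of_ne h, ← mul_assoc, ((E_comm x q).pow_right _).eq, mul_assoc]⟩

lemma of_mul_prod_E (g : H) (l : List ℕ) :
    MonoidAlgebra.of K H g * (l.map (E K p)).prod =
      ((l.map (ev (W g))).map (E K p)).prod * MonoidAlgebra.of K H g := by
  induction l with
  | nil => simp
  | cons q r ih =>
    simp only [List.map_cons, List.prod_cons]
    rw [← mul_assoc, of_mul_E, mul_assoc, ih, mul_assoc]

/-- the inverted orbit of a list of group elements -/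
noncomputable def pts : List H → List ℕ
  | [] => []
  | g :: r => ev (W g) 0 :: (pts r).map (ev (W g))

lemma pts_length (l : List H) : (pts l).length = l.length := by
  induction l with
  | nil => rfl
  | cons g r ih => simp [pts, ih]

noncomputable def word : List H → List V
  | [] => [V.e]
  | g :: r => W g ++ word r

lemma word_ne (l : List H) : word l ≠ [] := by
  induction l with
  | nil => simp [word]
  | cons g r ih => simp [word, ih]

lemma pts_mem (l : List H) : ∀ x ∈ pts l, x ∈ O (word l) := by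
  induction l with
  | nil => simp [pts]
  | cons g r ih =>
    intro x hx
    simp only [pts, List.mem_cons, List.mem_map] at hx
    rcases hx with rfl | ⟨q, hq, rfl⟩
    · exact ev_mem_O _ _ _ (zero_mem_O _ (word_ne r))
    · exact ev_mem_O _ _ _ (ih q hq)

lemma nrm_word (L : ℕ) (l : List H) (h : ∀ g ∈ l, nrm (W g) ≤ L) :
    nrm (word l) ≤ l.length * L + 3 := by
  induction l with
  | nil => simp [word, nrm, V.wt]
  | cons g r ih =>
    have h1 := h g (by simp)
    have h2 := ih (fun x hx => h x (by simp [hx]))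
    simp only [word, nrm_append, List.length_cons, add_mul]
    omega

lemma prod_t (l : List H) :
    (l.map (fun g => MonoidAlgebra.of K H g * E K p 0)).prod =
      ((pts l).map (E K p)).prod * MonoidAlgebra.of K H l.prod := by
  induction l with
  | nil => simp [pts, MonoidAlgebra.one_def]
  | cons g r ih =>
    simp only [List.map_cons, List.prod_cons, pts, ih, map_mul]
    rw [of_mul_E, mul_assoc, ← mul_assoc (MonoidAlgebra.of K H g), of_mul_prod_E]
    simp only [mul_assoc]

variable [hp : Fact p.Prime] [CharP K p]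

lemma prod_t_eq_zero (L : ℕ) : ∃ n : ℕ, ∀ l : List H, l.length = n →
    (∀ g ∈ l, nrm (W g) ≤ L) →
    (l.map (fun g => MonoidAlgebra.of K H g * E K p 0)).prod = 0 := by
  obtain ⟨n, hn⟩ := card_O_sublinear (p * L)
  refine ⟨n * p, fun l hl h => ?_⟩
  have h1 := hn (word l) (by rw [← mul_assoc, ← hl]; exact nrm_word L l h)
  obtain ⟨q, hq⟩ : ∃ q, p ≤ (pts l).count q := by
    by_contra hc
    push Not at hc
    have h2 : (pts l).toFinset ⊆ O (word l) := fun x hx => pts_mem l x (List.mem_toFinset.1 hx)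
    have h3 := Finset.sum_le_card_nsmul (pts l).toFinset (fun a => (pts l).count a) p
      fun a _ => (hc a).le
    rw [List.sum_toFinset_count_eq_length, pts_length, hl, smul_eq_mul] at h3
    have h4 := Nat.le_of_mul_le_mul_right h3 hp.out.pos
    have h5 := Finset.card_le_card h2
    omega
  obtain ⟨r, hr⟩ := prod_E (K := K) (p := p) q (pts l)
  rw [prod_t, hr, pow_eq_zero_of_le hq (E_pow q), zero_mul, zero_mul]

theorem nilpotent_mul (y : MonoidAlgebra K H) : IsNilpotent (y * E K p 0) := by
  have hy : ∃ L : ℕ, y * E K p 0 ∈ Submodule.span K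
      ((fun g => MonoidAlgebra.of K H g * E K p 0) '' {g | nrm (W g) ≤ L}) := by
    induction y using MonoidAlgebra.induction_on with
    | of g => exact ⟨nrm (W g), Submodule.subset_span ⟨g, by simp, rfl⟩⟩
    | add a b ha hb =>
      obtain ⟨L1, h1⟩ := ha
      obtain ⟨L2, h2⟩ := hb
      refine ⟨max L1 L2, ?_⟩
      rw [add_mul]
      refine add_mem (Submodule.span_mono (Set.image_mono ?_) h1)
        (Submodule.span_mono (Set.image_mono ?_) h2)
      · intro g hg; exact le_trans (show nrm (W g) ≤ L1 from hg) (le_max_left _ _)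
      · intro g hg; exact le_trans (show nrm (W g) ≤ L2 from hg) (le_max_right _ _)
    | smul r a ha =>
      obtain ⟨L, h⟩ := ha
      exact ⟨L, by rw [smul_mul_assoc]; exact Submodule.smul_mem _ _ h⟩
  obtain ⟨L, hL⟩ := hy
  obtain ⟨n, hn⟩ := prod_t_eq_zero (K := K) (p := p) L
  refine ⟨n, ?_⟩
  have := H86.pow_zero_of_span _ _ _ hL n 1 fun l hl hU => by rw [one_mul]; exact hn l hl hU
  simpa using this

end Pool.Agent.Lib.MP_d24f8b_al.AC
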