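import Mathlib

/-!
The Grigorchuk group acting on the orbit of the ray 111..., modelled on the naturals
(the Schreier graph is a ray), and the uniformly sublinear size of inverted orbits.
-/

set_option autoImplicit false

namespace Pool.Agent.Lib.MP_d24f8b_al

/-- The Klein four group of the letters 1, b, c, d. -/
inductive V : Type
  | e | b | c | d
  deriving DecidableEq

namespace V

def mul : V → V → V
  | e, y => y
  | x, e => x
  | b, b => e
  | b, c => d
  | b, d => c
  | c, b => d
  | c, c => e
  | c, d => b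
  | d, b => c
  | d, c => b
  | d, d => e

/-- section at the letter 1 -/
def sig : V → V
  | e => e
  | b => c
  | c => d
  | d => b

/-- whether the section at the letter 0 is `a` -/
def pi : V → Bool
  | e => false
  | b => true
  | c => true
  | d => false

def wt : V → ℕ
  | e => 0
  | b => 3
  | c => 2
  | d => 1

lemma sig_mul (x y : V) : sig (mul x y) = mul (sig x) (sig y) := by
  cases x <;> cases y <;> rfl

lemma pi_mul (x y : V) : pi (mul x y) = xor (pi x) (pi y) := by
  cases x <;> cases y <;> rfl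

lemma mul_self (x : V) : mul x x = e := by cases x <;> rfl

lemma wt_mul (x y : V) : wt (mul x y) ≤ wt x + wt y := by
  cases x <;> cases y <;> decide

lemma sig_surj (y : V) : ∃ x, sig x = y := by
  cases y
  · exact ⟨e, rfl⟩
  · exact ⟨d, rfl⟩
  · exact ⟨b, rfl⟩
  · exact ⟨c, rfl⟩

end V

/-- whether the letter swaps the pair `(2m-1, 2m)` -/
def sw (v : V) (m : ℕ) : Bool :=
  if h : m = 0 then false
  else if m % 2 = 1 then v.pi else sw v.sig (m / 2)
termination_by m
decreasing_by omega

lemma sw_zero (v : V) : sw v 0 = false := by rw [sw]; simp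

lemma sw_odd (v : V) (m : ℕ) (h : m % 2 = 1) : sw v m = v.pi := by
  rw [sw]; have : m ≠ 0 := by omega
  simp [this, h]

lemma sw_even (v : V) (m : ℕ) (h : m % 2 = 0) : sw v m = sw v.sig (m / 2) := by
  by_cases h0 : m = 0
  · subst h0; simp [sw_zero]
  · conv_lhs => rw [sw]
    have : ¬ m % 2 = 1 := by omega
    simp [h0, this]

lemma sw_mul (m : ℕ) : ∀ x y : V, sw (x.mul y) m = xor (sw x m) (sw y m) := by
  induction m using Nat.strong_induction_on with
  | _ m ih =>
    intro x y
    by_cases h0 : m = 0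
    · subst h0; simp [sw_zero]
    rcases Nat.mod_two_eq_zero_or_one m with h | h
    · rw [sw_even _ _ h, sw_even x _ h, sw_even y _ h, V.sig_mul, ih _ (by omega)]
    · rw [sw_odd _ _ h, sw_odd x _ h, sw_odd y _ h, V.pi_mul]

lemma sw_e (m : ℕ) : sw V.e m = false := by
  have := sw_mul m V.e V.e
  simpa [V.mul] using this

lemma sw_exists (m : ℕ) (hm : m ≠ 0) : ∃ v, sw v m = true := by
  induction m using Nat.strong_induction_on with
  | _ m ih =>
    rcases Nat.mod_two_eq_zero_or_one m with h | h
    · obtain ⟨v, hv⟩ := ih (m / 2) (by omega) (by omega)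
      obtain ⟨x, rfl⟩ := V.sig_surj v
      exact ⟨x, by rw [sw_even _ _ h, hv]⟩
    · exact ⟨V.b, by rw [sw_odd _ _ h]; rfl⟩

/-- the generator `a` -/
def A (n : ℕ) : ℕ := if n % 2 = 0 then n + 1 else n - 1

/-- the action of the letters 1, b, c, d -/
def act (v : V) (n : ℕ) : ℕ :=
  if sw v ((n + 1) / 2) = true then (if n % 2 = 0 then n - 1 else n + 1) else n

lemma A_A (n : ℕ) : A (A n) = n := by
  unfold A; split_ifs <;> omega

lemma act_zero (v : V) : act v 0 = 0 := by simp [act]

lemma act_pair (v : V) (n : ℕ) : (act v n + 1) / 2 = (n + 1) / 2 := by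
  unfold act
  split_ifs with h1 h2
  · have : n ≠ 0 := by rintro rfl; simp [sw_zero] at h1
    omega
  · omega
  · rfl

lemma act_mul (x y : V) (n : ℕ) : act (x.mul y) n = act x (act y n) := by
  conv_rhs => rw [act, act_pair]
  rw [act, sw_mul]
  by_cases h0 : n = 0
  · subst h0; simp [act_zero]
  cases hx : sw x ((n + 1) / 2) <;> cases hy : sw y ((n + 1) / 2) <;> simp [act, hy]
  split_ifs <;> omega

lemma act_e (n : ℕ) : act V.e n = n := by simp [act, sw_e]

lemma act_act (v : V) (n : ℕ) : act v (act v n) = n := by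
  rw [← act_mul, V.mul_self, act_e]

/-- the point `1u` -/
def i1 (m : ℕ) : ℕ := if m % 2 = 0 then 2 * m else 2 * m + 1

/-- the point `0u` -/
def i0 (m : ℕ) : ℕ := if m % 2 = 0 then 2 * m + 1 else 2 * m

lemma A_i0 (m : ℕ) : A (i0 m) = i1 m := by
  unfold A i0 i1; split_ifs <;> omega

lemma A_i1 (m : ℕ) : A (i1 m) = i0 m := by
  unfold A i0 i1; split_ifs <;> omega

lemma act_i1 (v : V) (m : ℕ) : act v (i1 m) = i1 (act v.sig m) := by
  have h1 : sw v ((i1 m + 1) / 2) = sw v.sig ((m + 1) / 2) := by
    rw [sw_even v _ (by unfold i1; split_ifs <;> omega)]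
    congr 1
    unfold i1; split_ifs <;> omega
  by_cases h0 : m = 0
  · subst h0; simp [i1, act_zero]
  rw [act, h1, act]
  unfold i1
  split_ifs <;> omega

lemma act_i0 (v : V) (m : ℕ) : act v (i0 m) = i0 (if v.pi = true then A m else m) := by
  have h1 : sw v ((i0 m + 1) / 2) = v.pi := by
    rw [sw_odd v _ (by unfold i0; split_ifs <;> omega)]
  rw [act, h1]
  unfold i0 A
  split_ifs <;> omega

/-- the inverted orbit of the word `x_0 a x_1 a ...` -/
def O : List V → Finset ℕ
  | [] => ∅
  | x :: r => insert 0 ((O r).image (fun n => act x (A n)))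

/-- the weighted length of a word -/
def nrm : List V → ℕ
  | [] => 0
  | x :: r => x.wt + 3 + nrm r

def mulL (v : V) : List V → List V
  | [] => [v]
  | y :: s => v.mul y :: s

/-- the two section words -/
def sec : List V → List V × List V
  | [] => ([V.e], [V.e])
  | x :: r => (if x.pi = true then V.e :: (sec r).2 else (sec r).2, mulL x.sig (sec r).1)

lemma mulL_ne (v : V) (s : List V) : mulL v s ≠ [] := by cases s <;> simp [mulL]

lemma sec_ne (w : List V) : (sec w).1 ≠ [] ∧ (sec w).2 ≠ [] := by
  induction w with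
  | nil => simp [sec]
  | cons x r ih =>
    refine ⟨?_, mulL_ne _ _⟩
    simp only [sec]
    split_ifs
    · simp
    · exact ih.2

lemma nrm_mulL (v : V) (s : List V) (hs : s ≠ []) : nrm (mulL v s) ≤ v.wt + nrm s := by
  cases s with
  | nil => exact absurd rfl hs
  | cons y s => have := V.wt_mul v y; simp only [mulL, nrm]; omega

lemma nrm_sec (w : List V) : 6 * (nrm (sec w).1 + nrm (sec w).2) ≤ 5 * nrm w + 36 := by
  induction w with
  | nil => simp [sec, nrm, V.wt]
  | cons x r ih =>
    have h1 := nrm_mulL x.sig _ (sec_ne r).1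
    cases x <;> simp only [sec, nrm, V.pi, V.sig, V.wt, if_true, Bool.false_eq_true, if_false]
      at h1 ⊢ <;> omega

lemma zero_mem_O (s : List V) (hs : s ≠ []) : 0 ∈ O s := by
  cases s with
  | nil => exact absurd rfl hs
  | cons y s => simp [O]

lemma act_mem_O (v : V) (s : List V) (p : ℕ) (hp : p ∈ O s) : act v p ∈ O (mulL v s) := by
  cases s with
  | nil => simp [O] at hp
  | cons y s =>
    simp only [O, mulL, Finset.mem_insert, Finset.mem_image] at hp ⊢
    rcases hp with rfl | ⟨q, hq, rfl⟩
    · left; exact act_zero v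
    · right; exact ⟨q, hq, act_mul _ _ _⟩

lemma O_sec (w : List V) : O w ⊆ (O (sec w).1).image i0 ∪ (O (sec w).2).image i1 := by
  induction w with
  | nil => simp [O]
  | cons x r ih =>
    intro p hp
    simp only [O, Finset.mem_insert, Finset.mem_image] at hp
    simp only [Finset.mem_union, Finset.mem_image]
    rcases hp with rfl | ⟨q, hq, rfl⟩
    · right; exact ⟨0, zero_mem_O _ (sec_ne _).2, by simp [i1]⟩
    · have := ih hq
      simp only [Finset.mem_union, Finset.mem_image] at this
      rcases this with ⟨m, hm, rfl⟩ | ⟨m, hm, rfl⟩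
      · right
        exact ⟨act x.sig m, act_mem_O _ _ _ hm, by rw [A_i0, act_i1]⟩
      · left
        refine ⟨if x.pi = true then A m else m, ?_, by rw [A_i1, act_i0]⟩
        simp only [sec]
        split_ifs
        · simp only [O, Finset.mem_insert, Finset.mem_image]
          right; exact ⟨m, hm, act_e _⟩
        · exact hm

lemma card_O_sec (w : List V) : (O w).card ≤ (O (sec w).1).card + (O (sec w).2).card :=
  (Finset.card_le_card (O_sec w)).trans ((Finset.card_union_le _ _).trans
    (add_le_add Finset.card_image_le Finset.card_image_le))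

lemma card_O_le (w : List V) : (O w).card ≤ nrm w := by
  induction w with
  | nil => simp [O]
  | cons x r ih =>
    have h1 := Finset.card_insert_le 0 ((O r).image (fun n => act x (A n)))
    have h2 : ((O r).image (fun n => act x (A n))).card ≤ (O r).card := Finset.card_image_le
    simp only [O, nrm]; omega

lemma card_O_pow (k : ℕ) : ∃ C : ℕ, ∀ w, 6 ^ k * (O w).card ≤ 5 ^ k * nrm w + C := by
  induction k with
  | zero => exact ⟨0, fun w => by simpa using card_O_le w⟩
  | succ k ih =>
    obtain ⟨C, hC⟩ := ih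
    refine ⟨5 ^ k * 36 + 12 * C, fun w => ?_⟩
    have h1 := hC (sec w).1
    have h2 := hC (sec w).2
    have h3 := Nat.mul_le_mul_left (6 ^ k) (card_O_sec w)
    have h4 := Nat.mul_le_mul_left (5 ^ k) (nrm_sec w)
    rw [pow_succ, pow_succ]
    nlinarith

/-- Inverted orbits have uniformly sublinear size. -/
lemma card_O_sublinear (L : ℕ) : ∃ n : ℕ, ∀ w, nrm w ≤ n * L + 3 → (O w).card < n := by
  obtain ⟨k, hk⟩ : ∃ k : ℕ, 5 ^ k * (2 * L) ≤ 6 ^ k := by
    obtain ⟨k, hk⟩ := pow_unbounded_of_one_lt ((2 * L : ℕ) : ℚ) (show (1 : ℚ) < 6 / 5 by norm_num)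
    refine ⟨k, ?_⟩
    rw [div_pow, lt_div_iff₀ (by positivity)] at hk
    have : ((5 ^ k * (2 * L) : ℕ) : ℚ) ≤ ((6 ^ k : ℕ) : ℚ) := by push_cast at hk ⊢; linarith
    exact_mod_cast this
  obtain ⟨C, hC⟩ := card_O_pow k
  refine ⟨2 * (5 ^ k * 3 + C) + 1, fun w hw => ?_⟩
  set n := 2 * (5 ^ k * 3 + C) + 1 with hn
  by_contra hcon
  rw [not_lt] at hcon
  have h1 := hC w
  have h2 := Nat.mul_le_mul_left (6 ^ k) hcon
  have h3 := Nat.mul_le_mul_left (5 ^ k) hw
  have h4 := Nat.mul_le_mul_left n hk
  have h5 : n ≤ 6 ^ k * n := Nat.le_mul_of_pos_left _ (by positivity)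
  nlinarith

/-- evaluation of the word `x_0 a x_1 a ... x_n a` -/
def ev : List V → ℕ → ℕ
  | [], n => n
  | x :: r, n => act x (A (ev r n))

lemma ev_append (l l' : List V) (n : ℕ) : ev (l ++ l') n = ev l (ev l' n) := by
  induction l with
  | nil => rfl
  | cons x r ih => simp [ev, ih]

lemma ev_mem_O (l s : List V) (p : ℕ) (hp : p ∈ O s) : ev l p ∈ O (l ++ s) := by
  induction l with
  | nil => exact hp
  | cons x r ih =>
    simp only [List.cons_append, O, ev, Finset.mem_insert, Finset.mem_image]
    right; exact ⟨_, ih, rfl⟩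

lemma nrm_append (l s : List V) : nrm (l ++ s) = nrm l + nrm s := by
  induction l with
  | nil => simp [nrm]
  | cons x r ih => simp only [List.cons_append, nrm, ih]; omega

end Pool.Agent.Lib.MP_d24f8b_al
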