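import Mathlib
import Pool.Agent.Lib.MP_d24f8b_al.Grig

/-!
The permutational wreath product of a cyclic group of order 2 with the Grigorchuk group,
as a group of permutations of `ℕ × Bool`, and its group algebra over the field with 2 elements.
-/

set_option autoImplicit false

namespace Pool.Agent.Lib.MP_d24f8b_al

open Equiv

def pA : Perm (ℕ × Bool) where
  toFun x := (A x.1, x.2)
  invFun x := (A x.1, x.2)
  left_inv x := by simp [A_A]
  right_inv x := by simp [A_A]

def pV (v : V) : Perm (ℕ × Bool) where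
  toFun x := (act v x.1, x.2)
  invFun x := (act v x.1, x.2)
  left_inv x := by simp [act_act]
  right_inv x := by simp [act_act]

/-- the lamp at the point `p` -/
def pX (p : ℕ) : Perm (ℕ × Bool) := swap (p, false) (p, true)

def gens : Set (Perm (ℕ × Bool)) := {pA, pV V.b, pV V.c, pV V.d, pX 0}

/-- the group -/
def G : Subgroup (Perm (ℕ × Bool)) := Subgroup.closure gens

instance : Group.FG G := by
  have : Finite gens := by unfold gens; infer_instance
  exact Group.closure_finite_fg gens

lemma pX_fst (p : ℕ) (x : ℕ × Bool) : (pX p x).1 = x.1 := by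
  unfold pX
  rw [swap_apply_def]
  split_ifs with h1 h2
  · rw [h1]
  · rw [h2]
  · rfl

lemma gens_word (g : Perm (ℕ × Bool)) (hg : g ∈ gens) :
    g⁻¹ = g ∧ ∃ l : List V, ∀ x, (g x).1 = ev l x.1 := by
  have hV : ∀ v : V, (pV v)⁻¹ = pV v ∧ ∃ l : List V, ∀ x, (pV v x).1 = ev l x.1 := by
    intro v
    refine ⟨rfl, [v, V.e], fun x => ?_⟩
    simp [ev, act_e, A_A, pV]
  simp only [gens, Set.mem_insert_iff, Set.mem_singleton_iff] at hg
  rcases hg with rfl | rfl | rfl | rfl | rfl
  · refine ⟨rfl, [V.e], fun x => ?_⟩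
    simp [ev, act_e, pA]
  · exact hV _
  · exact hV _
  · exact hV _
  · exact ⟨by simp [pX], [], fun x => pX_fst _ _⟩

lemma exists_word (g : G) : ∃ l : List V, ∀ x, (g.1 x).1 = ev l x.1 := by
  obtain ⟨g, hg⟩ := g
  have key : ∀ x ∈ gens, ∀ y : Perm (ℕ × Bool), (∃ l : List V, ∀ z, (y z).1 = ev l z.1) →
      ∃ l : List V, ∀ z, ((x * y) z).1 = ev l z.1 := by
    rintro x hx y ⟨l, hl⟩
    obtain ⟨l', hl'⟩ := (gens_word x hx).2
    exact ⟨l' ++ l, fun z => by rw [Perm.mul_apply, hl', hl, ev_append]⟩
  induction hg using Subgroup.closure_induction_left with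
  | one => exact ⟨[], fun x => rfl⟩
  | mul_left x hx y _ ih => exact key x hx y ih
  | inv_mul_cancel x hx y _ ih =>
    have := key x hx y ih
    rw [← (gens_word x hx).1] at this
    exact this

/-- a word representing the action of `g` on the base set -/
noncomputable def W (g : G) : List V := (exists_word g).choose

lemma W_spec (g : G) (x : ℕ × Bool) : (g.1 x).1 = ev (W g) x.1 := (exists_word g).choose_spec x

lemma conj_pX (g : G) (p : ℕ) : g.1 * pX p = pX (ev (W g) p) * g.1 := by
  have h1 := W_spec g (p, false)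
  have h2 := W_spec g (p, true)
  have h3 : g.1 (p, false) ≠ g.1 (p, true) := fun h => by simpa using g.1.injective h
  unfold pX
  rw [mul_swap_eq_swap_mul]
  congr 1
  generalize g.1 (p, false) = u at *
  generalize g.1 (p, true) = v at *
  obtain ⟨u1, u2⟩ := u
  obtain ⟨v1, v2⟩ := v
  simp only at h1 h2
  subst h1
  subst h2
  cases u2 <;> cases v2
  · exact absurd rfl h3
  · rfl
  · exact swap_comm _ _
  · exact absurd rfl h3

lemma pV_mem (v : V) : pV v ∈ G := by
  cases v
  · have : pV V.e = 1 := by ext x <;> simp [pV, act_e]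
    rw [this]; exact one_mem _
  all_goals exact Subgroup.subset_closure (by simp [gens])

lemma pX_mem (p : ℕ) : pX p ∈ G := by
  have key : ∀ (g : G) (p : ℕ), pX p ∈ G → pX (g.1 (p, false)).1 ∈ G := by
    intro g p hp
    have h := conj_pX g p
    rw [W_spec]
    have : pX (ev (W g) p) = g.1 * pX p * g.1⁻¹ := by rw [h]; simp
    rw [this]
    exact mul_mem (mul_mem g.2 hp) (inv_mem g.2)
  induction p with
  | zero => exact Subgroup.subset_closure (by simp [gens])
  | succ p ih =>
    rcases Nat.mod_two_eq_zero_or_one p with h | h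
    · have := key ⟨pA, Subgroup.subset_closure (by simp [gens])⟩ p ih
      simpa [pA, A, h] using this
    · obtain ⟨v, hv⟩ := sw_exists ((p + 1) / 2) (by omega)
      have := key ⟨pV v, pV_mem v⟩ p ih
      simpa [pV, act, h, hv] using this

def X (p : ℕ) : G := ⟨pX p, pX_mem p⟩

lemma conj_X (g : G) (p : ℕ) : g * X p = X (ev (W g) p) * g := Subtype.ext (conj_pX g p)

lemma X_mul_self (p : ℕ) : X p * X p = 1 := Subtype.ext (by simp [X, pX])

lemma X_comm (p q : ℕ) : X p * X q = X q * X p := by
  rw [conj_X]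
  congr 2
  have := W_spec (X p) (q, false)
  rw [← this]
  exact pX_fst _ _

/-- the group algebra -/
abbrev R : Type := MonoidAlgebra (ZMod 2) G

noncomputable def E (p : ℕ) : R := 1 + MonoidAlgebra.of (ZMod 2) G (X p)

lemma of_mul_E (g : G) (p : ℕ) :
    MonoidAlgebra.of (ZMod 2) G g * E p = E (ev (W g) p) * MonoidAlgebra.of (ZMod 2) G g := by
  simp only [E, mul_add, add_mul, mul_one, one_mul, ← map_mul, conj_X]

lemma E_comm (p q : ℕ) : E p * E q = E q * E p := by
  simp only [E, mul_add, add_mul, mul_one, one_mul, ← map_mul, X_comm p q]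
  abel

lemma E_mul_self (p : ℕ) : E p * E p = 0 := by
  have h2 : (2 : R) = 0 := by
    have : (2 : R) = algebraMap (ZMod 2) R 2 := by simp [map_ofNat]
    rw [this]
    have : (2 : ZMod 2) = 0 := rfl
    rw [this, map_zero]
  have : E p * E p = 2 * E p := by
    rw [two_mul]
    simp only [E, mul_add, add_mul, mul_one, one_mul, ← map_mul, X_mul_self, map_one]
    abel
  rw [this, h2, zero_mul]

lemma E_mul_prod (p : ℕ) (l : List ℕ) (h : p ∈ l) : E p * (l.map E).prod = 0 := by
  induction l with
  | nil => simp at h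
  | cons q r ih =>
    rw [List.map_cons, List.prod_cons, ← mul_assoc]
    rcases List.mem_cons.1 h with rfl | h
    · rw [E_mul_self, zero_mul]
    · rw [E_comm, mul_assoc, ih h, mul_zero]

lemma prod_E_eq_zero (l : List ℕ) (h : ¬ l.Nodup) : (l.map E).prod = 0 := by
  induction l with
  | nil => simp at h
  | cons q r ih =>
    rw [List.map_cons, List.prod_cons]
    by_cases hq : q ∈ r
    · exact E_mul_prod q r hq
    · rw [ih (fun h' => h (List.nodup_cons.2 ⟨hq, h'⟩)), mul_zero]

lemma of_mul_prod_E (g : G) (l : List ℕ) :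
    MonoidAlgebra.of (ZMod 2) G g * (l.map E).prod =
      ((l.map (ev (W g))).map E).prod * MonoidAlgebra.of (ZMod 2) G g := by
  induction l with
  | nil => simp
  | cons q r ih =>
    simp only [List.map_cons, List.prod_cons]
    rw [← mul_assoc, of_mul_E, mul_assoc, ih, mul_assoc]

/-- the inverted orbit of a list of group elements -/
noncomputable def pts : List G → List ℕ
  | [] => []
  | g :: r => ev (W g) 0 :: (pts r).map (ev (W g))

lemma pts_length (l : List G) : (pts l).length = l.length := by
  induction l with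
  | nil => rfl
  | cons g r ih => simp [pts, ih]

noncomputable def word : List G → List V
  | [] => [V.e]
  | g :: r => W g ++ word r

lemma word_ne (l : List G) : word l ≠ [] := by
  induction l with
  | nil => simp [word]
  | cons g r ih => simp [word, ih]

lemma pts_mem (l : List G) : ∀ p ∈ pts l, p ∈ O (word l) := by
  induction l with
  | nil => simp [pts]
  | cons g r ih =>
    intro p hp
    simp only [pts, List.mem_cons, List.mem_map] at hp
    rcases hp with rfl | ⟨q, hq, rfl⟩
    · exact ev_mem_O _ _ _ (zero_mem_O _ (word_ne r))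
    · exact ev_mem_O _ _ _ (ih q hq)

lemma nrm_word (L : ℕ) (l : List G) (h : ∀ g ∈ l, nrm (W g) ≤ L) :
    nrm (word l) ≤ l.length * L + 3 := by
  induction l with
  | nil => simp [word, nrm, V.wt]
  | cons g r ih =>
    have h1 := h g (by simp)
    have h2 := ih (fun x hx => h x (by simp [hx]))
    simp only [word, nrm_append, List.length_cons, add_mul]
    omega

lemma prod_t (l : List G) :
    (l.map (fun g => MonoidAlgebra.of (ZMod 2) G g * E 0)).prod =
      ((pts l).map E).prod * MonoidAlgebra.of (ZMod 2) G l.prod := by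
  induction l with
  | nil => simp [pts, MonoidAlgebra.one_def]
  | cons g r ih =>
    simp only [List.map_cons, List.prod_cons, pts, ih, map_mul]
    rw [of_mul_E, mul_assoc, ← mul_assoc (MonoidAlgebra.of (ZMod 2) G g), of_mul_prod_E]
    simp only [mul_assoc]

lemma prod_t_eq_zero (L : ℕ) : ∃ n : ℕ, ∀ l : List G, l.length = n →
    (∀ g ∈ l, nrm (W g) ≤ L) →
    (l.map (fun g => MonoidAlgebra.of (ZMod 2) G g * E 0)).prod = 0 := by
  obtain ⟨n, hn⟩ := card_O_sublinear L
  refine ⟨n, fun l hl h => ?_⟩
  have h1 := hn (word l) (hl ▸ nrm_word L l h)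
  rw [prod_t, prod_E_eq_zero, zero_mul]
  intro hnd
  have h2 : (pts l).toFinset ⊆ O (word l) := fun p hp => pts_mem l p (List.mem_toFinset.1 hp)
  have h3 := Finset.card_le_card h2
  rw [List.toFinset_card_of_nodup hnd, pts_length] at h3
  omega

lemma pow_eq_zero_of_span {K S ι : Type} [Field K] [Ring S] [Algebra K S] (t : ι → S)
    (U : Set ι) (z : S) (hz : z ∈ Submodule.span K (t '' U)) (n : ℕ) :
    ∀ r : S, (∀ l : List ι, l.length = n → (∀ g ∈ l, g ∈ U) → r * (l.map t).prod = 0) →
      r * z ^ n = 0 := by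
  induction n with
  | zero => intro r h; simpa using h [] rfl (by simp)
  | succ n ih =>
    intro r h
    have key : ∀ y ∈ Submodule.span K (t '' U), r * y * z ^ n = 0 := by
      intro y hy
      induction hy using Submodule.span_induction with
      | mem x hx =>
        obtain ⟨g, hg, rfl⟩ := hx
        refine ih _ (fun l hl hU => ?_)
        have := h (g :: l) (by simp [hl]) (by
          intro x hx
          rcases List.mem_cons.1 hx with rfl | hx
          · exact hg
          · exact hU x hx)
        simpa [mul_assoc] using this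
      | zero => simp
      | add x y _ _ hx hy => rw [mul_add, add_mul, hx, hy, add_zero]
      | smul c x _ hx => rw [mul_smul_comm, smul_mul_assoc, hx, smul_zero]
    rw [pow_succ', ← mul_assoc]
    exact key z hz

/-- Every left multiple of `E 0` is nilpotent. -/
lemma nilpotent_mul_E (y : R) : IsNilpotent (y * E 0) := by
  classical
  have hy : ∃ L : ℕ, y * E 0 ∈ Submodule.span (ZMod 2)
      ((fun g => MonoidAlgebra.of (ZMod 2) G g * E 0) '' {g | nrm (W g) ≤ L}) := by
    induction y using MonoidAlgebra.induction_on with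
    | of g => exact ⟨nrm (W g), Submodule.subset_span ⟨g, by simp, rfl⟩⟩
    | add f g hf hg =>
      obtain ⟨L1, h1⟩ := hf
      obtain ⟨L2, h2⟩ := hg
      refine ⟨max L1 L2, ?_⟩
      rw [add_mul]
      refine add_mem (Submodule.span_mono (Set.image_mono ?_) h1)
        (Submodule.span_mono (Set.image_mono ?_) h2)
      · intro g hg; exact le_trans (show nrm (W g) ≤ L1 from hg) (le_max_left _ _)
      · intro g hg; exact le_trans (show nrm (W g) ≤ L2 from hg) (le_max_right _ _)
    | smul r f hf =>
      obtain ⟨L, h⟩ := hf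
      exact ⟨L, by rw [smul_mul_assoc]; exact Submodule.smul_mem _ _ h⟩
  obtain ⟨L, hL⟩ := hy
  obtain ⟨n, hn⟩ := prod_t_eq_zero L
  refine ⟨n, ?_⟩
  have := pow_eq_zero_of_span _ _ _ hL n 1 (fun l hl hU => by rw [one_mul]; exact hn l hl hU)
  simpa using this

lemma E_mem_jacobson : E 0 ∈ Ideal.jacobson (⊥ : Ideal R) := by
  rw [Ideal.mem_jacobson_iff]
  intro y
  obtain ⟨u, hu⟩ := (nilpotent_mul_E y).isUnit_add_one
  refine ⟨↑u⁻¹, ?_⟩
  rw [Ideal.mem_bot, mul_assoc]
  have : (↑u⁻¹ : R) * (y * E 0) + ↑u⁻¹ = ↑u⁻¹ * ↑u := by rw [hu, mul_add, mul_one]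
  rw [this, Units.inv_mul, sub_self]

lemma E_mul_apply (p : ℕ) (f : R) (g : G) : 
    (E p * f).coeff g = f.coeff g + f.coeff (X p * g) := by
  have h : (X p)⁻¹ = X p := inv_eq_of_mul_eq_one_right (X_mul_self p)
  simp only [E, add_mul, one_mul, MonoidAlgebra.of_apply]
  rw [MonoidAlgebra.coeff_add, Finsupp.add_apply, MonoidAlgebra.coeff_single_mul_apply, h, one_mul]

lemma prod_E_fix (l : List ℕ) (q : ℕ) (hq : q ∉ l) (g : G) (hg : (l.map E).prod.coeff g ≠ 0) :
    g.1 (q, false) = (q, false) := by
  induction l generalizing g with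
  | nil =>
    have : g = 1 := by
      by_contra h
      apply hg
      simp only [List.map_nil, List.prod_nil, MonoidAlgebra.one_def]
      exact Finsupp.single_eq_of_ne h
    rw [this]; rfl
  | cons p r ih =>
    rw [List.map_cons, List.prod_cons, E_mul_apply] at hg
    have hqr : q ∉ r := fun h => hq (by simp [h])
    have hqp : q ≠ p := fun h => hq (by simp [h])
    by_cases h1 : (r.map E).prod.coeff g = 0
    · rw [h1, zero_add] at hg
      have h2 := ih hqr _ hg
      have h3 : pX p (g.1 (q, false)) = (q, false) := h2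
      have h4 : pX p (q, false) = (q, false) :=
        swap_apply_of_ne_of_ne (by simp [hqp]) (by simp)
      exact (pX p).injective (h3.trans h4.symm)
    · exact ih hqr g h1

lemma prod_E_one (l : List ℕ) (h : l.Nodup) : (l.map E).prod.coeff 1 = 1 := by
  induction l with
  | nil =>
    simp only [List.map_nil, List.prod_nil, MonoidAlgebra.one_def]
    exact Finsupp.single_eq_same
  | cons p r ih =>
    rw [List.nodup_cons] at h
    rw [List.map_cons, List.prod_cons, E_mul_apply, ih h.2, mul_one]
    have : (r.map E).prod.coeff (X p) = 0 := by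
      by_contra h1
      have := prod_E_fix r p h.1 _ h1
      simp [X, pX] at this
    rw [this, add_zero]

section Nil

variable {S : Type} [Ring S]

/-- two-sided left ideals all of whose products of some fixed length vanish -/
def NilSet (S : Type) [Ring S] : Set (Ideal S) :=
  {I | (∀ a ∈ I, ∀ b : S, a * b ∈ I) ∧
    ∃ n : ℕ, ∀ l : List S, l.length = n → (∀ x ∈ l, x ∈ I) → l.prod = 0}

lemma prod_mem_of_sup (I J : Ideal S) (hI : ∀ a ∈ I, ∀ b : S, a * b ∈ I) (l : List S)
    (h : ∀ x ∈ l, x ∈ I ⊔ J) :
    ∃ l' : List S, l'.length = l.length ∧ (∀ x ∈ l', x ∈ J) ∧ l.prod - l'.prod ∈ I := by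
  induction l with
  | nil => exact ⟨[], rfl, by simp, by simp⟩
  | cons a r ih =>
    obtain ⟨l', h1, h2, h3⟩ := ih (fun x hx => h x (by simp [hx]))
    obtain ⟨u, hu, v, hv, rfl⟩ := Submodule.mem_sup.1 (h a (by simp))
    refine ⟨v :: l', by simp [h1], ?_, ?_⟩
    · intro x hx
      rcases List.mem_cons.1 hx with rfl | hx
      · exact hv
      · exact h2 x hx
    · have : ((u + v) :: r).prod - (v :: l').prod = u * r.prod + v * (r.prod - l'.prod) := by
        simp only [List.prod_cons]; noncomm_ring
      rw [this]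
      exact I.add_mem (hI u hu _) (I.mul_mem_left v h3)

lemma sup_mem_NilSet (I J : Ideal S) (hI : I ∈ NilSet S) (hJ : J ∈ NilSet S) :
    I ⊔ J ∈ NilSet S := by
  obtain ⟨hI1, n, hI2⟩ := hI
  obtain ⟨hJ1, m, hJ2⟩ := hJ
  refine ⟨?_, n * m, ?_⟩
  · intro a ha b
    obtain ⟨u, hu, v, hv, rfl⟩ := Submodule.mem_sup.1 ha
    rw [add_mul]
    exact Submodule.add_mem_sup (hI1 u hu b) (hJ1 v hv b)
  · have block : ∀ l : List S, l.length = m → (∀ x ∈ l, x ∈ I ⊔ J) → l.prod ∈ I := by
      intro l hl h
      obtain ⟨l', h1, h2, h3⟩ := prod_mem_of_sup I J hI1 l h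
      rwa [hJ2 l' (h1.trans hl) h2, sub_zero] at h3
    have key : ∀ (k : ℕ) (l : List S), l.length = k * m → (∀ x ∈ l, x ∈ I ⊔ J) →
        ∃ l' : List S, l'.length = k ∧ (∀ x ∈ l', x ∈ I) ∧ l'.prod = l.prod := by
      intro k
      induction k with
      | zero =>
        intro l hl _
        have : l = [] := List.length_eq_zero_iff.1 (by simpa using hl)
        exact ⟨[], rfl, by simp, by simp [this]⟩
      | succ k ih =>
        intro l hl h
        have hm : m ≤ l.length := by rw [hl, add_mul, one_mul]; omega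
        obtain ⟨l', h1, h2, h3⟩ := ih (l.drop m)
          (by rw [List.length_drop, hl, add_mul, one_mul]; omega)
          (fun x hx => h x (List.mem_of_mem_drop hx))
        refine ⟨(l.take m).prod :: l', by simp [h1], ?_, ?_⟩
        · intro x hx
          rcases List.mem_cons.1 hx with rfl | hx
          · exact block _ (by rw [List.length_take]; omega)
              (fun x hx => h x (List.mem_of_mem_take hx))
          · exact h2 x hx
        · rw [List.prod_cons, h3, List.prod_take_mul_prod_drop]
    intro l hl h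
    obtain ⟨l', h1, h2, h3⟩ := key n l hl h
    rw [← h3]
    exact hI2 l' h1 h2

lemma mem_sSup_NilSet (x : S) (hx : x ∈ sSup (NilSet S)) : ∃ I ∈ NilSet S, x ∈ I := by
  have hne : (NilSet S).Nonempty := by
    refine ⟨⊥, ?_, 1, ?_⟩
    · intro a ha b
      rw [Ideal.mem_bot] at ha ⊢
      rw [ha, zero_mul]
    · intro l hl h
      obtain ⟨a, rfl⟩ := List.length_eq_one_iff.1 hl
      simpa using h
  have hdir : DirectedOn (· ≤ ·) (NilSet S) := fun I hI J hJ =>
    ⟨I ⊔ J, sup_mem_NilSet I J hI hJ, le_sup_left, le_sup_right⟩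
  exact (Submodule.mem_sSup_of_directed hne hdir).1 hx

lemma NilSet_eq : {I : Ideal S | (∀ a ∈ I, ∀ b : S, a * b ∈ I) ∧
    ∃ n : ℕ, ∀ x : Fin n → S, (∀ i, x i ∈ I) → (List.ofFn x).prod = 0} = NilSet S := by
  ext I
  simp only [NilSet, Set.mem_ofPred_eq]
  refine and_congr_right (fun _ => exists_congr (fun n => ⟨?_, ?_⟩))
  · rintro h l rfl hl
    have := h l.get (fun i => hl _ (List.get_mem l i))
    rwa [List.ofFn_get] at this
  · intro h x hx
    refine h _ (by simp) (fun y hy => ?_)
    obtain ⟨i, rfl⟩ := (List.mem_ofFn' x y).1 hy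
    exact hx i

end Nil

lemma E_mem_of_E_zero (I : Ideal R) (hI : ∀ a ∈ I, ∀ b : R, a * b ∈ I) (h : E 0 ∈ I) (p : ℕ) :
    E p ∈ I := by
  have key : ∀ (g : G) (p : ℕ), E p ∈ I → E (g.1 (p, false)).1 ∈ I := by
    intro g p hp
    rw [W_spec]
    have : E (ev (W g) p) =
        MonoidAlgebra.of (ZMod 2) G g * E p * MonoidAlgebra.of (ZMod 2) G g⁻¹ := by
      rw [of_mul_E, mul_assoc, ← map_mul, mul_inv_cancel, map_one, mul_one]
    rw [this]
    exact hI _ (I.mul_mem_left _ hp) _
  induction p with
  | zero => exact h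
  | succ p ih =>
    rcases Nat.mod_two_eq_zero_or_one p with h | h
    · have := key ⟨pA, Subgroup.subset_closure (by simp [gens])⟩ p ih
      simpa [pA, A, h] using this
    · obtain ⟨v, hv⟩ := sw_exists ((p + 1) / 2) (by omega)
      have := key ⟨pV v, pV_mem v⟩ p ih
      simpa [pV, act, h, hv] using this

lemma E_not_mem : E 0 ∉ sSup (NilSet R) := by
  intro h
  obtain ⟨I, ⟨hI, n, hn⟩, h0⟩ := mem_sSup_NilSet _ h
  have h1 := hn ((List.range n).map E) (by simp) (by
    intro x hx
    obtain ⟨p, _, rfl⟩ := List.mem_map.1 hx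
    exact E_mem_of_E_zero I hI h0 p)
  have h2 := prod_E_one (List.range n) List.nodup_range
  rw [h1] at h2
  simp at h2

end Pool.Agent.Lib.MP_d24f8b_al
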